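import Pool.Agent.H52.AL.Defs

/-!
# Module D of project AL: the discrete Burke bound for the longest chain
-/

set_option autoImplicit false
open Classical

namespace Pool.H36.AL

open Pool.H52.AL

/-! ## Bernoulli expectations over subsets -/

section EB

variable {τ : Type*}

/-- expectation of `F` over a Bernoulli(`p`) subset of `S` -/
noncomputable def EB (p : ℝ) (S : Finset τ) (F : Finset τ → ℝ) : ℝ :=
  ∑ ω ∈ S.powerset, p ^ ω.card * (1 - p) ^ (S.card - ω.card) * F ω

theorem EB_congr {p : ℝ} {S : Finset τ} {F G : Finset τ → ℝ} (h : ∀ ω ⊆ S, F ω = G ω) :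
    EB p S F = EB p S G := by
  unfold EB
  refine Finset.sum_congr rfl fun ω hω => ?_
  rw [h ω (Finset.mem_powerset.1 hω)]

theorem EB_empty (p : ℝ) (F : Finset τ → ℝ) : EB p ∅ F = F ∅ := by
  simp [EB]

theorem EB_insert [DecidableEq τ] {p : ℝ} {S : Finset τ} {c : τ} (hc : c ∉ S) (F : Finset τ → ℝ) :
    EB p (insert c S) F = EB p S (fun ω => p * F (insert c ω) + (1 - p) * F ω) := by
  unfold EB
  rw [Finset.sum_powerset_insert hc, ← Finset.sum_add_distrib]
  refine Finset.sum_congr rfl fun ω hω => ?_
  have hω' := Finset.mem_powerset.1 hω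
  have h1 : c ∉ ω := fun h => hc (hω' h)
  have h2 : ω.card ≤ S.card := Finset.card_le_card hω'
  rw [Finset.card_insert_of_notMem hc, Finset.card_insert_of_notMem h1]
  have h3 : S.card + 1 - ω.card = (S.card - ω.card) + 1 := by omega
  have h4 : S.card + 1 - (ω.card + 1) = S.card - ω.card := by omega
  rw [h3, h4, pow_succ, pow_succ]
  ring

theorem EB_add (p : ℝ) (S : Finset τ) (F G : Finset τ → ℝ) :
    EB p S (fun ω => F ω + G ω) = EB p S F + EB p S G := by
  unfold EB
  rw [← Finset.sum_add_distrib]
  exact Finset.sum_congr rfl fun ω _ => by ring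

theorem EB_mul (p : ℝ) (S : Finset τ) (c : ℝ) (F : Finset τ → ℝ) :
    EB p S (fun ω => c * F ω) = c * EB p S F := by
  unfold EB
  rw [Finset.mul_sum]
  exact Finset.sum_congr rfl fun ω _ => by ring

theorem EB_const (p : ℝ) (S : Finset τ) (c : ℝ) : EB p S (fun _ => c) = c := by
  induction S using Finset.induction_on with
  | empty => rw [EB_empty]
  | insert a S ha ih =>
    rw [EB_insert ha]
    have : (fun _ : Finset τ => p * c + (1 - p) * c) = fun _ => c := by
      funext _; ring
    rw [this, ih]

theorem EB_mono {p : ℝ} (h0 : 0 ≤ p) (h1 : p ≤ 1) {S : Finset τ} {F G : Finset τ → ℝ}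
    (h : ∀ ω ⊆ S, F ω ≤ G ω) : EB p S F ≤ EB p S G := by
  unfold EB
  refine Finset.sum_le_sum fun ω hω => ?_
  refine mul_le_mul_of_nonneg_left (h ω (Finset.mem_powerset.1 hω)) ?_
  have : 0 ≤ 1 - p := by linarith
  positivity

theorem EB_card (p : ℝ) (S : Finset τ) : EB p S (fun ω => (ω.card : ℝ)) = p * S.card := by
  induction S using Finset.induction_on with
  | empty => rw [EB_empty]; simp
  | insert a S ha ih =>
    rw [EB_insert ha]
    have h1 : EB p S (fun ω => p * ((insert a ω).card : ℝ) + (1 - p) * (ω.card : ℝ)) =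
        EB p S (fun ω => p + (ω.card : ℝ)) := by
      refine EB_congr fun ω hω => ?_
      rw [Finset.card_insert_of_notMem (fun h => ha (hω h))]
      push_cast
      ring
    rw [h1, EB_add, EB_const, ih, Finset.card_insert_of_notMem ha]
    push_cast
    ring

end EB

/-! ## One row -/

/-- the carrier passing through a row -/
noncomputable def carr (v : Bool) (A X : Finset ℕ) : ℕ → Bool
  | 0 => v
  | (i + 1) => !(decide (i ∈ A)) && (carr v A X i || decide (i ∈ X))

/-- the new row -/
noncomputable def nrow (v : Bool) (A X : Finset ℕ) (m : ℕ) : Finset ℕ :=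
  (Finset.range m).filter fun i => (!(carr v A X i) && (decide (i ∈ A) || decide (i ∈ X))) = true

theorem carr_congr {v : Bool} {A A' X X' : Finset ℕ} {m : ℕ} (hA : ∀ i < m, i ∈ A ↔ i ∈ A')
    (hX : ∀ i < m, i ∈ X ↔ i ∈ X') : carr v A X m = carr v A' X' m := by
  induction m with
  | zero => rfl
  | succ m ih =>
    have h := ih (fun i hi => hA i (by omega)) (fun i hi => hX i (by omega))
    simp only [carr, h, hA m (by omega), hX m (by omega)]

theorem nrow_congr {v : Bool} {A A' X X' : Finset ℕ} {m : ℕ} (hA : ∀ i < m, i ∈ A ↔ i ∈ A')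
    (hX : ∀ i < m, i ∈ X ↔ i ∈ X') : nrow v A X m = nrow v A' X' m := by
  unfold nrow
  refine Finset.filter_congr fun i hi => ?_
  rw [Finset.mem_range] at hi
  rw [carr_congr (fun j hj => hA j (by omega)) (fun j hj => hX j (by omega)),
    decide_eq_decide.2 (hA i hi), decide_eq_decide.2 (hX i hi)]

theorem nrow_succ (v : Bool) (A X : Finset ℕ) (m : ℕ) :
    nrow v A X (m + 1) =
      if (!(carr v A X m) && (decide (m ∈ A) || decide (m ∈ X))) = true then
        insert m (nrow v A X m) else nrow v A X m := by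
  unfold nrow
  rw [Finset.range_add_one, Finset.filter_insert]

theorem row_burke (α q : ℝ) (hα : α ^ 2 = (1 - α) ^ 2 * q) (m : ℕ) (F : Bool → Finset ℕ → ℝ) :
    α * EB α (Finset.range m) (fun A => EB q (Finset.range m)
        (fun X => F (carr true A X m) (nrow true A X m))) +
      (1 - α) * EB α (Finset.range m) (fun A => EB q (Finset.range m)
        (fun X => F (carr false A X m) (nrow false A X m))) =
    α * EB α (Finset.range m) (fun A => F true A) +
      (1 - α) * EB α (Finset.range m) (fun A => F false A) := by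
  induction m generalizing F with
  | zero => simp [EB_empty, carr, nrow]
  | succ m ih =>
    have hm : m ∉ Finset.range m := by simp
    -- one-step function
    let F' : Bool → Finset ℕ → ℝ := fun c N =>
      α * F false (if c then N else insert m N) +
        (1 - α) * (q * F true (if c then N else insert m N) + (1 - q) * F c N)
    have key : ∀ v : Bool, EB α (Finset.range (m + 1)) (fun A => EB q (Finset.range (m + 1))
        (fun X => F (carr v A X (m + 1)) (nrow v A X (m + 1)))) =
        EB α (Finset.range m) (fun A => EB q (Finset.range m)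
          (fun X => F' (carr v A X m) (nrow v A X m))) := by
      intro v
      rw [Finset.range_add_one, EB_insert hm]
      refine EB_congr fun A hA => ?_
      rw [EB_insert hm, EB_insert hm, ← EB_mul, ← EB_mul, ← EB_add]
      refine EB_congr fun X hX => ?_
      have hmA : m ∉ A := fun h => hm (hA h)
      have hmX : m ∉ X := fun h => hm (hX h)
      have cA : ∀ i < m, i ∈ insert m A ↔ i ∈ A := fun i hi => by
        rw [Finset.mem_insert]
        constructor
        · rintro (h | h)
          · omega
          · exact h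
        · exact Or.inr
      have cX : ∀ i < m, i ∈ insert m X ↔ i ∈ X := fun i hi => by
        rw [Finset.mem_insert]
        constructor
        · rintro (h | h)
          · omega
          · exact h
        · exact Or.inr
      have n1 : nrow v (insert m A) (insert m X) m = nrow v A X m := nrow_congr cA cX
      have n2 : nrow v (insert m A) X m = nrow v A X m := nrow_congr cA (fun _ _ => Iff.rfl)
      have n3 : nrow v A (insert m X) m = nrow v A X m := nrow_congr (fun _ _ => Iff.rfl) cX
      have c1 : carr v (insert m A) (insert m X) m = carr v A X m := carr_congr cA cX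
      have c2 : carr v (insert m A) X m = carr v A X m := carr_congr cA (fun _ _ => Iff.rfl)
      have c3 : carr v A (insert m X) m = carr v A X m := carr_congr (fun _ _ => Iff.rfl) cX
      simp only [nrow_succ, carr, n1, n2, n3, c1, c2, c3, hmA, hmX, Finset.mem_insert_self, F']
      cases carr v A X m
      · simp [-mul_eq_mul_left_iff, -mul_eq_mul_right_iff]
        ring
      · simp [-mul_eq_mul_left_iff, -mul_eq_mul_right_iff]
        ring
    rw [key true, key false, ih F']
    rw [Finset.range_add_one, EB_insert hm, EB_insert hm]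
    simp only [F', ← EB_mul, ← EB_add]
    refine EB_congr fun A hA => ?_
    simp only [if_true, if_false, Bool.false_eq_true]
    linear_combination (F true (insert m A) - F false A) * (-hα)

/-! ## All rows -/

theorem EB_union_image {q : ℝ} (S : Finset Cell) (R : Finset ℕ) (j : ℕ)
    (hS : ∀ i, (i, j) ∉ S) (F : Finset Cell → ℝ) :
    EB q (S ∪ R.image (fun i => ((i, j) : Cell))) F =
      EB q S (fun ω => EB q R (fun X => F (ω ∪ X.image (fun i => ((i, j) : Cell))))) := by
  induction R using Finset.induction_on generalizing F with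
  | empty => simp [EB_empty]
  | insert c R hc ih =>
    have h1 : ((c, j) : Cell) ∉ S ∪ R.image (fun i => ((i, j) : Cell)) := by
      rw [Finset.mem_union, Finset.mem_image]
      rintro (h | ⟨i, hi, h⟩)
      · exact hS c h
      · rw [Prod.mk.injEq] at h
        exact hc (h.1 ▸ hi)
    rw [Finset.image_insert, Finset.union_insert, EB_insert h1, ih]
    refine EB_congr fun ω _ => ?_
    rw [EB_insert hc]
    refine EB_congr fun X _ => ?_
    rw [Finset.image_insert, Finset.union_insert]

/-- the cells in the first `j` rows -/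
def rect (M j : ℕ) : Finset Cell := Finset.range M ×ˢ Finset.range j

theorem rect_succ (M j : ℕ) :
    rect M (j + 1) = rect M j ∪ (Finset.range M).image (fun i => ((i, j) : Cell)) := by
  ext ⟨i, l⟩
  simp only [rect, Finset.mem_product, Finset.mem_range, Finset.mem_union, Finset.mem_image,
    Prod.mk.injEq]
  constructor
  · rintro ⟨h1, h2⟩
    by_cases h : l = j
    · exact Or.inr ⟨i, h1, rfl, h.symm⟩
    · exact Or.inl ⟨h1, by omega⟩
  · rintro (⟨h1, h2⟩ | ⟨i', h1, rfl, rfl⟩)
    · exact ⟨h1, by omega⟩
    · exact ⟨h1, by omega⟩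

/-- the row `j` of `ω` -/
noncomputable def rowX (M : ℕ) (ω : Finset Cell) (j : ℕ) : Finset ℕ :=
  (Finset.range M).filter fun i => ((i, j) : Cell) ∈ ω

/-- the state after `j` rows -/
noncomputable def Arow (M : ℕ) (A0 V : Finset ℕ) (ω : Finset Cell) : ℕ → Finset ℕ
  | 0 => A0
  | (j + 1) => nrow (decide (j ∈ V)) (Arow M A0 V ω j) (rowX M ω j) M

theorem Arow_congr {M : ℕ} {A0 V V' : Finset ℕ} {ω ω' : Finset Cell} {j : ℕ}
    (hV : ∀ i < j, i ∈ V ↔ i ∈ V') (hω : ∀ i l, l < j → (((i, l) : Cell) ∈ ω ↔ (i, l) ∈ ω')) :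
    Arow M A0 V ω j = Arow M A0 V' ω' j := by
  induction j with
  | zero => rfl
  | succ j ih =>
    have h := ih (fun i hi => hV i (by omega)) (fun i l hl => hω i l (by omega))
    have h2 : rowX M ω j = rowX M ω' j := by
      unfold rowX
      exact Finset.filter_congr fun i _ => hω i j (by omega)
    simp only [Arow, h, h2, decide_eq_decide.2 (hV j (by omega))]

theorem col_burke (α q : ℝ) (hα : α ^ 2 = (1 - α) ^ 2 * q) (M j : ℕ) (F : Finset ℕ → ℝ) :
    EB α (Finset.range M) (fun A0 => EB α (Finset.range j) (fun V => EB q (rect M j)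
      (fun ω => F (Arow M A0 V ω j)))) = EB α (Finset.range M) F := by
  induction j generalizing F with
  | zero => simp [EB_empty, rect, Arow]
  | succ j ih =>
    have hj : j ∉ Finset.range j := by simp
    have hS : ∀ i, ((i, j) : Cell) ∉ rect M j := by
      intro i h
      simp [rect] at h
    let F2 : Finset ℕ → ℝ := fun A =>
      α * EB q (Finset.range M) (fun X => F (nrow true A X M)) +
        (1 - α) * EB q (Finset.range M) (fun X => F (nrow false A X M))
    have h1 : EB α (Finset.range M) (fun A0 => EB α (Finset.range (j + 1)) (fun V =>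
        EB q (rect M (j + 1)) (fun ω => F (Arow M A0 V ω (j + 1))))) =
        EB α (Finset.range M) (fun A0 => EB α (Finset.range j) (fun V => EB q (rect M j)
          (fun ω => F2 (Arow M A0 V ω j)))) := by
      refine EB_congr fun A0 _ => ?_
      rw [Finset.range_add_one, EB_insert hj]
      refine EB_congr fun V hV => ?_
      rw [rect_succ, EB_union_image _ _ _ hS, EB_union_image _ _ _ hS, ← EB_mul, ← EB_mul,
        ← EB_add]
      refine EB_congr fun ω hω => ?_
      have hjV : j ∉ V := fun h => hj (hV h)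
      have cV : ∀ i < j, i ∈ insert j V ↔ i ∈ V := fun i hi => by
        rw [Finset.mem_insert]
        constructor
        · rintro (h | h)
          · omega
          · exact h
        · exact Or.inr
      have cω : ∀ X : Finset ℕ, ∀ i l, l < j →
          (((i, l) : Cell) ∈ ω ∪ X.image (fun i => ((i, j) : Cell)) ↔ (i, l) ∈ ω) := by
        intro X i l hl
        rw [Finset.mem_union, Finset.mem_image]
        constructor
        · rintro (h | ⟨i', _, h⟩)
          · exact h
          · rw [Prod.mk.injEq] at h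
            omega
        · exact Or.inl
      have rX : ∀ X ⊆ Finset.range M, rowX M (ω ∪ X.image (fun i => ((i, j) : Cell))) j = X := by
        intro X hX
        ext i
        simp only [rowX, Finset.mem_filter, Finset.mem_union, Finset.mem_image, Prod.mk.injEq]
        constructor
        · rintro ⟨_, h | ⟨i', hi', rfl, _⟩⟩
          · exact absurd (hω h) (hS i)
          · exact hi'
        · intro hi
          exact ⟨hX hi, Or.inr ⟨i, hi, rfl, trivial⟩⟩
      have e1 : ∀ X ⊆ Finset.range M, Arow M A0 (insert j V)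
          (ω ∪ X.image (fun i => ((i, j) : Cell))) (j + 1) =
          nrow true (Arow M A0 V ω j) X M := by
        intro X hX
        simp only [Arow, rX X hX, Finset.mem_insert_self, decide_true]
        rw [Arow_congr cV (cω X)]
      have e2 : ∀ X ⊆ Finset.range M, Arow M A0 V
          (ω ∪ X.image (fun i => ((i, j) : Cell))) (j + 1) =
          nrow false (Arow M A0 V ω j) X M := by
        intro X hX
        simp only [Arow, rX X hX, hjV, decide_false]
        rw [Arow_congr (fun _ _ => Iff.rfl) (cω X)]
      have f1 : EB q (Finset.range M) (fun X => F (Arow M A0 (insert j V)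
          (ω ∪ X.image (fun i => ((i, j) : Cell))) (j + 1))) =
          EB q (Finset.range M) (fun X => F (nrow true (Arow M A0 V ω j) X M)) :=
        EB_congr fun X hX => by rw [e1 X hX]
      have f2 : EB q (Finset.range M) (fun X => F (Arow M A0 V
          (ω ∪ X.image (fun i => ((i, j) : Cell))) (j + 1))) =
          EB q (Finset.range M) (fun X => F (nrow false (Arow M A0 V ω j) X M)) :=
        EB_congr fun X hX => by rw [e2 X hX]
      simp only [F2]
      rw [f1, f2]
    rw [h1, ih F2]
    have h2 := row_burke α q hα M (fun _ A => F A)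
    simp only [F2, EB_add, EB_mul]
    rw [h2]
    ring

/-! ## The height function -/

/-- the height at `(i, j)` -/
noncomputable def Ht (M : ℕ) (A0 V : Finset ℕ) (ω : Finset Cell) (j i : ℕ) : ℕ :=
  ((Finset.range j).filter fun l => l ∈ V).card +
    ((Finset.range i).filter fun l => l ∈ Arow M A0 V ω j).card

theorem card_range_succ (i : ℕ) (P : ℕ → Prop) [DecidablePred P] :
    ((Finset.range (i + 1)).filter P).card =
      ((Finset.range i).filter P).card + if P i then 1 else 0 := by
  rw [Finset.range_add_one, Finset.filter_insert]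
  split_ifs with h
  · rw [Finset.card_insert_of_notMem (by simp)]
  · rfl

theorem Ht_row (M : ℕ) (A0 V : Finset ℕ) (ω : Finset Cell) (j i : ℕ) (hi : i ≤ M) :
    Ht M A0 V ω (j + 1) i = Ht M A0 V ω j i +
      (if carr (decide (j ∈ V)) (Arow M A0 V ω j) (rowX M ω j) i = true then 1 else 0) := by
  induction i with
  | zero =>
    simp only [Ht, card_range_succ, carr, Finset.range_zero, Finset.filter_empty,
      Finset.card_empty, add_zero, decide_eq_true_eq]
  | succ i ih =>
    have h := ih (by omega)
    simp only [Ht] at h ⊢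
    rw [card_range_succ i, card_range_succ i]
    have hmem : i ∈ Arow M A0 V ω (j + 1) ↔
        (!(carr (decide (j ∈ V)) (Arow M A0 V ω j) (rowX M ω j) i) &&
          (decide (i ∈ Arow M A0 V ω j) || decide (i ∈ rowX M ω j))) = true := by
      simp only [Arow, nrow, Finset.mem_filter, Finset.mem_range]
      constructor
      · exact fun h => h.2
      · exact fun h => ⟨by omega, h⟩
    by_cases hc : carr (decide (j ∈ V)) (Arow M A0 V ω j) (rowX M ω j) i = true <;>
      by_cases h1 : i ∈ Arow M A0 V ω j <;> by_cases h2 : i ∈ rowX M ω j <;>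
      simp only [hc, h1, h2, hmem, carr, decide_true, decide_false, Bool.not_true, Bool.not_false,
        Bool.and_true, Bool.and_false, Bool.or_true, Bool.or_false, if_true, if_false,
        Bool.false_eq_true] at h ⊢ <;> omega

theorem Ht_mono_i (M : ℕ) (A0 V : Finset ℕ) (ω : Finset Cell) (j : ℕ) {i i' : ℕ} (h : i ≤ i') :
    Ht M A0 V ω j i ≤ Ht M A0 V ω j i' := by
  unfold Ht
  refine Nat.add_le_add_left (Finset.card_le_card ?_) _
  exact Finset.filter_subset_filter _ (Finset.range_mono h)

theorem Ht_mono_j (M : ℕ) (A0 V : Finset ℕ) (ω : Finset Cell) {j j' i : ℕ} (hi : i ≤ M)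
    (h : j ≤ j') : Ht M A0 V ω j i ≤ Ht M A0 V ω j' i := by
  induction j', h using Nat.le_induction with
  | base => exact le_rfl
  | succ l _ ih =>
    rw [Ht_row M A0 V ω l i hi]
    omega

theorem Ht_point (M : ℕ) (A0 V : Finset ℕ) (ω : Finset Cell) {i j : ℕ} (hi : i < M)
    (h : ((i, j) : Cell) ∈ ω) : Ht M A0 V ω j i + 1 ≤ Ht M A0 V ω (j + 1) (i + 1) := by
  rw [Ht_row M A0 V ω j (i + 1) (by omega)]
  have h2 : i ∈ rowX M ω j := by
    rw [rowX, Finset.mem_filter, Finset.mem_range]
    exact ⟨hi, h⟩
  have h3 : Ht M A0 V ω j (i + 1) = Ht M A0 V ω j i + if i ∈ Arow M A0 V ω j then 1 else 0 := by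
    simp only [Ht]
    rw [card_range_succ i]
    omega
  rw [h3]
  simp only [carr]
  by_cases h1 : i ∈ Arow M A0 V ω j <;> simp [h1, h2]

theorem chain_le (M : ℕ) (A0 V : Finset ℕ) {ω : Finset Cell} (hω : ω ⊆ grid M) (b : ℕ)
    (z : Cell) (h1 : z.1 ≤ M) (h2 : z.2 ≤ M) (h : Pool.H52.AL.D (YI b) ω z) :
    Ht M A0 V ω z.2 z.1 + b ≤ Ht M A0 V ω M M := by
  induction b generalizing z with
  | zero => exact (Ht_mono_i M A0 V ω z.2 h1).trans (Ht_mono_j M A0 V ω le_rfl h2)
  | succ b ih =>
    obtain ⟨A, hA, ⟨p, hp, B, hB, hYB, hBp⟩, hz⟩ := h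
    have hpω := hA hp
    have hpg := hω hpω
    rw [grid, Finset.mem_product, Finset.mem_range, Finset.mem_range] at hpg
    have h3 := ih (p.1 + 1, p.2 + 1) hpg.1 hpg.2 ⟨B, hB.trans hA, hYB, hBp⟩
    simp only at h3
    have h4 := Ht_point M A0 V ω hpg.1 (i := p.1) (j := p.2) hpω
    have h5 := hz p hp
    have h6 : Ht M A0 V ω z.2 z.1 ≤ Ht M A0 V ω p.2 p.1 :=
      (Ht_mono_i M A0 V ω z.2 h5.1).trans (Ht_mono_j M A0 V ω (by omega) h5.2)
    omega

theorem Cab_le (M : ℕ) (A0 V : Finset ℕ) {ω : Finset Cell} (hω : ω ⊆ grid M) (b : ℕ)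
    (h : Cab 0 b ω) : b ≤ Ht M A0 V ω M M := by
  obtain ⟨z, _, A, hA, hY, _⟩ := h
  have := chain_le M A0 V hω b (0, 0) (Nat.zero_le _) (Nat.zero_le _)
    ⟨A, hA, hY, fun p _ => ⟨Nat.zero_le _, Nat.zero_le _⟩⟩
  omega

theorem nrow_subset (v : Bool) (A X : Finset ℕ) (m : ℕ) : nrow v A X m ⊆ Finset.range m :=
  Finset.filter_subset _ _

theorem Arow_subset {M : ℕ} {A0 : Finset ℕ} (hA : A0 ⊆ Finset.range M) (V : Finset ℕ)
    (ω : Finset Cell) (j : ℕ) : Arow M A0 V ω j ⊆ Finset.range M := by
  cases j with
  | zero => exact hA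
  | succ j => exact nrow_subset _ _ _ _

theorem Ht_top {M : ℕ} {A0 V : Finset ℕ} (hA : A0 ⊆ Finset.range M) (hV : V ⊆ Finset.range M)
    (ω : Finset Cell) : Ht M A0 V ω M M = V.card + (Arow M A0 V ω M).card := by
  unfold Ht
  have e1 : (Finset.range M).filter (fun l => l ∈ V) = V := by
    ext l
    rw [Finset.mem_filter]
    exact ⟨fun h => h.2, fun h => ⟨hV h, h⟩⟩
  have e2 : (Finset.range M).filter (fun l => l ∈ Arow M A0 V ω M) = Arow M A0 V ω M := by
    ext l
    rw [Finset.mem_filter]
    exact ⟨fun h => h.2, fun h => ⟨Arow_subset hA V ω M h, h⟩⟩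
  rw [e1, e2]

theorem Pr_eq_EB (q : ℝ) (M : ℕ) (P : Finset Cell → Prop) :
    Pr q M P = EB q (grid M) (fun ω => if P ω then 1 else 0) := by
  unfold Pr EB
  have hc : (grid M).card = M ^ 2 := by
    rw [grid, Finset.card_product, Finset.card_range]; ring
  rw [Finset.sum_filter, hc]
  refine Finset.sum_congr rfl fun ω _ => ?_
  by_cases h : P ω
  · simp only [h, if_true, mul_one]
  · simp only [h, if_false, mul_zero]

theorem count_le (β : ℕ) (Q : ℕ → Prop) (T : ℕ) (h : ∀ b, Q (b + 1) → b + 1 ≤ T) :
    ∑ b ∈ Finset.range β, (if Q (b + 1) then (1 : ℝ) else 0) ≤ T := by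
  rw [Finset.sum_boole]
  have h1 : ((Finset.range β).filter fun b => Q (b + 1)) ⊆ Finset.range T := by
    intro b hb
    rw [Finset.mem_filter] at hb
    rw [Finset.mem_range]
    have := h b hb.2
    omega
  have h2 := Finset.card_le_card h1
  rw [Finset.card_range] at h2
  exact_mod_cast h2

/-- MODULE D -/
theorem lis (q : ℝ) (hq0 : 0 < q) (hq1 : q < 1) (M β : ℕ) :
    ∑ b ∈ Finset.range β, Pr q M (Cab 0 (b + 1)) ≤ 2 * M * Real.sqrt q := by
  set s := Real.sqrt q with hs
  have hs0 : 0 < s := Real.sqrt_pos.2 hq0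
  have hsq : s ^ 2 = q := Real.sq_sqrt hq0.le
  set α := s / (1 + s) with hαd
  have hα0 : 0 ≤ α := by positivity
  have hα1 : α ≤ 1 := by
    rw [hαd, div_le_one (by positivity)]; linarith
  have hαs : α ≤ s := by
    rw [hαd, div_le_iff₀ (by positivity)]; nlinarith
  have hα : α ^ 2 = (1 - α) ^ 2 * q := by
    have : 1 - α = 1 / (1 + s) := by
      rw [hαd]; field_simp; ring
    rw [this, hαd, ← hsq]
    field_simp
  have h1 : ∑ b ∈ Finset.range β, Pr q M (Cab 0 (b + 1)) =
      EB q (grid M) (fun ω => ∑ b ∈ Finset.range β, (if Cab 0 (b + 1) ω then (1 : ℝ) else 0)) := by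
    simp only [Pr_eq_EB]
    unfold EB
    rw [Finset.sum_comm]
    refine Finset.sum_congr rfl fun ω _ => ?_
    rw [Finset.mul_sum]
  rw [h1]
  have h2 : EB q (grid M) (fun ω => ∑ b ∈ Finset.range β,
      (if Cab 0 (b + 1) ω then (1 : ℝ) else 0)) =
      EB α (Finset.range M) (fun _ => EB α (Finset.range M) (fun _ => EB q (grid M) (fun ω =>
        ∑ b ∈ Finset.range β, (if Cab 0 (b + 1) ω then (1 : ℝ) else 0)))) := by
    rw [EB_const, EB_const]
  rw [h2]
  have h3 : EB α (Finset.range M) (fun A0 => EB α (Finset.range M) (fun V => EB q (grid M)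
      (fun ω => ∑ b ∈ Finset.range β, (if Cab 0 (b + 1) ω then (1 : ℝ) else 0)))) ≤
      EB α (Finset.range M) (fun A0 => EB α (Finset.range M) (fun V => EB q (grid M) (fun ω =>
        (V.card : ℝ) + ((Arow M A0 V ω M).card : ℝ)))) := by
    refine EB_mono hα0 hα1 fun A0 hA0 => EB_mono hα0 hα1 fun V hV =>
      EB_mono hq0.le hq1.le fun ω hω => ?_
    have := count_le β (fun b => Cab 0 b ω) (Ht M A0 V ω M M)
      (fun b hb => Cab_le M A0 V hω (b + 1) hb)
    rw [Ht_top hA0 hV] at this
    push_cast at this
    exact this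
  refine h3.trans ?_
  simp only [EB_add, EB_const]
  have h4 := col_burke α q hα M M (fun A => (A.card : ℝ))
  have h5 : rect M M = grid M := rfl
  rw [h5] at h4
  rw [h4, EB_card, Finset.card_range]
  nlinarith [Nat.cast_nonneg (α := ℝ) M]

end Pool.H36.AL
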